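import Pool.Agent.Helper52.Tao.FIN
import Pool.Agent.Helper8.ND.Flow

/-!
# The recursion over scales of `Helper52.Tao.FIN` for all sets which are invariant beyond a bound
-/

set_option autoImplicit false

namespace Pool.Agent.Helper51.PD

open Pool.Agent.Helper68.Moeller Pool.Agent.Helper52.Tao Pool.Agent.Helper8.ND

variable {d m : ℕ} {r : ℤ → ℤ}

/-- One step of the recursion. -/
theorem fd_step (hd : 2 ≤ d) (hdm : d < m) (hco : Nat.Coprime m d)
    (hm : (m : ℝ) ≤ (d : ℝ) ^ ((d : ℝ) / ((d : ℝ) - 1))) (hr : Admissible d m r) (h1 : Mixing d m r) (n : ℕ) :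
    ∃ c₁ C₂ C U₀ : ℝ, 0 < c₁ ∧ c₁ ≤ 1 / 2 ∧ 0 < C₂ ∧ 0 < C ∧ 0 < U₀ ∧ ∀ (H : Set ℤ) (z : ℝ), TInv d m r H z →
      1 ≤ z → ∀ u, U₀ ≤ u → C * z ^ 2 ≤ Real.exp (u / 2) → ∀ G, 0 ≤ G →
        (∀ u', u / 2 ≤ u' → u' ≤ (1 - c₁) * u → fd H (Real.exp u') ≤ G) →
          fd H (Real.exp u) ≤ G + C₂ * (u ^ n)⁻¹ := by
  classical
  have hd' : (2 : ℝ) ≤ d := by exact_mod_cast hd
  have hd0 : (0 : ℝ) < d := by linarith
  have hm0 : (0 : ℝ) < m := by
    have : 0 < m := by omega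
    exact_mod_cast this
  have hD := log_d_pos hd
  have hM := log_m_gt hd hdm
  have hM0 : 0 < Real.log m := hD.trans hM
  obtain ⟨hp1, hp2⟩ := p_bounds hd hdm hco hm
  set al : ℝ := (1 - 1 / (d : ℝ) + Real.log d / Real.log m) / 2 with hal
  have hal1 : (1 - 1 / (d : ℝ)) * 1 < al := by rw [hal]; linarith
  have hal2 : al < Real.log d / Real.log m := by rw [hal]; linarith
  have hδ : 0 < Real.log d - al * Real.log m := by
    rw [lt_div_iff₀ hM0] at hal2
    linarith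
  set δ := Real.log d - al * Real.log m with hδ_def
  obtain ⟨c, hc0, hc⟩ := chernoff hd one_pos hal1
  obtain ⟨C, hC0, hC⟩ := flow_le hd hdm hco hr h1 n
  set L := Real.log d + Real.log m with hL
  have hL0 : 0 < L := by positivity
  set c₀ := 1 / (16 * L) with hc₀
  have hc₀0 : 0 < c₀ := by positivity
  have hc₀L : c₀ * L = 1 / 16 := by rw [hc₀]; field_simp
  have hδL : δ ≤ L := by
    have : 0 ≤ al * Real.log m := by
      have : 0 ≤ al := by
        have : (0 : ℝ) ≤ 1 - 1 / (d : ℝ) := by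
          rw [sub_nonneg, div_le_one hd0]; linarith
        linarith
      positivity
    rw [hδ_def, hL]; linarith
  refine ⟨c₀ * δ / 2, 2 * (n.factorial / (c * c₀ / 2) ^ n) + C * ((c₀ / 2) ^ n)⁻¹, C, 2 / c₀,
    by positivity, ?_, by positivity, hC0, by positivity, ?_⟩
  · have : c₀ * δ ≤ c₀ * L := mul_le_mul_of_nonneg_left hδL hc₀0.le
    linarith
  intro H z hH hz u hu hCz G hG hG'
  have hu0 : 0 < u := lt_of_lt_of_le (by positivity) hu
  have hcu : 2 ≤ c₀ * u := by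
    rw [div_le_iff₀ hc₀0] at hu
    linarith
  set t := ⌊c₀ * u⌋₊ with ht
  have ht1 : (t : ℝ) ≤ c₀ * u := Nat.floor_le (by positivity)
  have ht2 : c₀ * u < t + 1 := Nat.lt_floor_add_one _
  have ht3 : c₀ / 2 * u ≤ t := by linarith
  have ht4 : 1 ≤ t := by
    rw [ht]; exact Nat.le_floor (by push_cast; linarith)
  have ht0 : (0 : ℝ) < t := by exact_mod_cast ht4
  have htL : (t : ℝ) * L ≤ u / 16 := by
    have := mul_le_mul_of_nonneg_right ht1 hL0.le
    have h2 : c₀ * u * L = u / 16 := by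
      rw [mul_right_comm, hc₀L]; ring
    linarith
  -- the condition of the flow inequality
  have hcond : C * z ^ 2 * ((d : ℝ) * m) ^ (8 * t) ≤ Real.exp u := by
    have h2 : ((d : ℝ) * m) ^ (8 * t) ≤ Real.exp (u / 2) := by
      have h3 : ((d : ℝ) * m) ^ (8 * t) = Real.exp (8 * t * L) := by
        rw [hL, ← Real.log_mul hd0.ne' hm0.ne', ← Real.exp_log (show (0 : ℝ) < ((d : ℝ) * m) ^ (8 * t) by
          positivity), Real.log_pow]
        push_cast
        rfl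
      rw [h3]
      exact Real.exp_le_exp.2 (by nlinarith)
    calc C * z ^ 2 * ((d : ℝ) * m) ^ (8 * t) ≤ Real.exp (u / 2) * Real.exp (u / 2) :=
          mul_le_mul hCz h2 (by positivity) (Real.exp_pos _).le
      _ = Real.exp u := by rw [← Real.exp_add]; congr 1; ring
  have hflow := hC t ht4 z (Real.exp u) hz hcond H hH
  -- the sum over the words
  have hsum : ∑ v ∈ W d t, fd H (Real.exp u * (m : ℝ) ^ sg v / (d : ℝ) ^ t) ≤
      (d : ℝ) ^ t * G + 2 * cW d t (fun w => al * t ≤ (sg w : ℝ)) := by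
    rw [cW_eq_sum, Finset.mul_sum]
    have hcard : (d : ℝ) ^ t * G = ∑ _v ∈ W d t, G := by
      rw [Finset.sum_const, card_W, nsmul_eq_mul]
      push_cast; rfl
    rw [hcard, ← Finset.sum_add_distrib]
    refine Finset.sum_le_sum fun v hv => ?_
    have hsgv : (sg v : ℝ) ≤ t := by
      have := sg_le_length v
      rw [length_of_mem_W hv] at this
      exact_mod_cast this
    have hval : Real.exp u * (m : ℝ) ^ sg v / (d : ℝ) ^ t =
        Real.exp (u + sg v * Real.log m - t * Real.log d) := by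
      rw [Real.exp_sub, Real.exp_add, ← Real.log_pow, ← Real.log_pow, Real.exp_log (by positivity),
        Real.exp_log (by positivity)]
    rw [hval]
    have htD : (t : ℝ) * Real.log d ≤ u / 16 := by
      refine le_trans (mul_le_mul_of_nonneg_left ?_ ht0.le) htL
      rw [hL]; linarith
    have hsM : 0 ≤ (sg v : ℝ) * Real.log m := by positivity
    split_ifs with hsv
    · have h2 : fd H (Real.exp (u + sg v * Real.log m - t * Real.log d)) ≤ 2 :=
        fd_le_two H (Real.one_le_exp (by linarith))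
      linarith
    · rw [not_le] at hsv
      have h2 : (sg v : ℝ) * Real.log m ≤ al * t * Real.log m :=
        mul_le_mul_of_nonneg_right hsv.le hM0.le
      have h3 : (c₀ / 2 * u) * δ ≤ t * δ := mul_le_mul_of_nonneg_right ht3 hδ.le
      have h4 := hG' (u + sg v * Real.log m - t * Real.log d) (by linarith) (by
        rw [hδ_def] at h3 ⊢
        nlinarith)
      linarith
  have hdt : (0 : ℝ) < (d : ℝ) ^ t := by positivity
  have hch := hc t t (by linarith)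
  have h5 : (∑ v ∈ W d t, fd H (Real.exp u * (m : ℝ) ^ sg v / (d : ℝ) ^ t)) / (d : ℝ) ^ t ≤
      G + 2 * Real.exp (-(c * t)) := by
    rw [div_le_iff₀ hdt]
    refine hsum.trans ?_
    have h9 := mul_le_mul_of_nonneg_left hch (by norm_num : (0 : ℝ) ≤ 2)
    have h10 : (G + 2 * Real.exp (-(c * t))) * (d : ℝ) ^ t =
        (d : ℝ) ^ t * G + 2 * ((d : ℝ) ^ t * Real.exp (-(c * t))) := by ring
    rw [h10]
    linarith
  have h6 : Real.exp (-(c * t)) ≤ n.factorial / (c * c₀ / 2) ^ n * (u ^ n)⁻¹ := by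
    refine le_trans (Real.exp_le_exp.2 ?_) (exp_neg_le (by positivity) n hu0)
    have h9 := mul_le_mul_of_nonneg_left ht3 hc0.le
    have h10 : c * c₀ / 2 * u = c * (c₀ / 2 * u) := by ring
    rw [h10]
    linarith
  have h7 : (t : ℝ) ^ (-(n : ℝ)) ≤ ((c₀ / 2) ^ n)⁻¹ * (u ^ n)⁻¹ := by
    rw [Real.rpow_neg ht0.le, Real.rpow_natCast, ← mul_inv, ← mul_pow]
    exact inv_anti₀ (by positivity) (pow_le_pow_left₀ (by positivity) ht3 n)
  have h8 : C * (t : ℝ) ^ (-(n : ℝ)) ≤ C * (((c₀ / 2) ^ n)⁻¹ * (u ^ n)⁻¹) :=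
    mul_le_mul_of_nonneg_left h7 hC0.le
  calc fd H (Real.exp u) ≤ _ := hflow
    _ ≤ (G + 2 * Real.exp (-(c * t))) + C * (t : ℝ) ^ (-(n : ℝ)) := by linarith
    _ ≤ G + 2 * (n.factorial / (c * c₀ / 2) ^ n * (u ^ n)⁻¹) + C * (((c₀ / 2) ^ n)⁻¹ * (u ^ n)⁻¹) := by
        linarith
    _ = _ := by ring


/-- A bound for the density at the scales `[u₀ / 2, u₀]` holds at all later scales, up to `C u₀ ^ (-n)`. -/
theorem fd_rec (hd : 2 ≤ d) (hdm : d < m) (hco : Nat.Coprime m d)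
    (hm : (m : ℝ) ≤ (d : ℝ) ^ ((d : ℝ) / ((d : ℝ) - 1))) (hr : Admissible d m r) (h1 : Mixing d m r) {n : ℕ}
    (hn : 1 ≤ n) :
    ∃ C₂ C U₀ : ℝ, 0 < C₂ ∧ 0 < C ∧ 0 < U₀ ∧ ∀ (H : Set ℤ) (z : ℝ), TInv d m r H z → 1 ≤ z →
      ∀ u₀, U₀ ≤ u₀ → C * z ^ 2 ≤ Real.exp (u₀ / 2) → ∀ D, 0 ≤ D →
        (∀ u, u₀ / 2 ≤ u → u ≤ u₀ → fd H (Real.exp u) ≤ D) →
          ∀ u, u₀ / 2 ≤ u → fd H (Real.exp u) ≤ D + C₂ * (u₀ ^ n)⁻¹ := by
  obtain ⟨c₁, C₂, C, U₀, hc1, hc1', hC20, hC0, hU0, hstep⟩ := fd_step (r := r) hd hdm hco hm hr h1 n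
  have h1c : 0 < 1 - c₁ := by linarith
  have hpow : (1 - c₁) ^ n < 1 := pow_lt_one₀ h1c.le (by linarith) (by omega)
  have hden : 0 < ((1 - c₁) ^ n)⁻¹ - 1 := by
    have := (one_lt_inv₀ (pow_pos h1c n)).2 hpow
    linarith
  refine ⟨C₂ / (((1 - c₁) ^ n)⁻¹ - 1) * 2 ^ n, C, U₀, by positivity, hC0, hU0, ?_⟩
  intro H z hH hz u₀ hu₀ hCz D hD hbase u hu
  have hu₀0 : 0 < u₀ := hU0.trans_le hu₀
  have h2 := recursion (fun u => fd H (Real.exp u)) (u₀ := u₀) (G₀ := D) hn hu₀0 hD hc1 hc1' hC20.le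
    hbase (by
      intro u hu G hG hG'
      exact hstep H z hH hz u (hu₀.trans hu) (hCz.trans (Real.exp_le_exp.2 (by linarith))) G hG hG')
    u hu
  refine h2.trans (le_of_eq ?_)
  ring

end Pool.Agent.Helper51.PD
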