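import Pool.Agent.Helper51.PD.Count
import Pool.Agent.Helper51.PD.FdRec
import Pool.Agent.Helper5.PD.Small

/-!
# The upper density of the integers with a path to `a` above `z` is at most `C z ^ (-κ)`
-/

set_option autoImplicit false

namespace Pool.Agent.Helper51.PD

open Filter Topology Pool.Agent.Helper68.Moeller Pool.Agent.Helper8.ND Pool.Agent.Helper91 Pool.Agent.Helper28

variable {d m : ℕ} {r : ℤ → ℤ}

theorem fdrec (h : POSB.Std d m r) : ∀ n : ℕ, ∃ C₂ K U₀ : ℝ, 0 < C₂ ∧ 0 < K ∧ 0 < U₀ ∧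
    ∀ (G : Set ℤ) (Z : ℝ), 1 ≤ Z → TInv d m r G Z → ∀ u₀ : ℝ, U₀ ≤ u₀ →
      K * Z ^ 2 ≤ Real.exp (u₀ / 4) → ∀ D : ℝ, 0 ≤ D → (∀ u : ℝ, u₀ / 2 ≤ u → u ≤ u₀ → fd G (Real.exp u) ≤ D) →
      ∀ u : ℝ, u₀ / 2 ≤ u → fd G (Real.exp u) ≤ D + C₂ * (u₀ ^ n)⁻¹ := by
  intro n
  obtain ⟨C₂, K, U₀, hC₂, hK, hU₀, hrec⟩ := fd_rec (r := r) h.hd h.hdm h.hco h.hw h.hr h.mix
    (n := n + 1) (by omega)
  refine ⟨C₂, K, max U₀ 1, hC₂, hK, lt_of_lt_of_le one_pos (le_max_right _ _), ?_⟩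
  intro G Z hZ hG u₀ hu₀ hKZ D hD hbase u hu
  have h1 : U₀ ≤ u₀ := (le_max_left _ _).trans hu₀
  have h2 : 1 ≤ u₀ := (le_max_right _ _).trans hu₀
  have h3 := hrec G Z hG hZ u₀ h1 (hKZ.trans (Real.exp_le_exp.2 (by linarith))) D hD hbase u hu
  refine h3.trans ?_
  have h4 : (u₀ ^ (n + 1))⁻¹ ≤ (u₀ ^ n)⁻¹ :=
    inv_anti₀ (by positivity) (pow_le_pow_right₀ h2 (Nat.le_succ n))
  have h5 := mul_le_mul_of_nonneg_left h4 hC₂.le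
  linarith

/-- **The integers with a path to `a` above `z`.** -/
theorem path_tail (h : POSB.Std d m r) {κ : ℝ} (hκ : 0 < κ) (hκ1 : κ < 1 - eta d m) :
    ∃ C : ℝ, 0 < C ∧ ∀ (a : ℤ) (z ε : ℝ), 1 ≤ a → 1 ≤ z → 0 < ε → ∀ᶠ x : ℝ in atTop,
      cN {n : ℤ | ∃ t : ℕ, (T d m r)^[t] n = a ∧ ∀ i ≤ t, z < ((T d m r)^[i] n : ℝ)} x ≤
        (C * z ^ (-κ) + ε) * x := by
  set η₁ : ℝ := (eta d m + (1 - κ)) / 2 with hη₁
  obtain ⟨CT, hCT, hT⟩ := card_Gz (r := r) h.hd h.hdm h.hco h.hw h.hr (η := η₁) (by rw [hη₁]; linarith)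
    (by rw [hη₁]; linarith)
  have hθ : 0 < (1 - κ - η₁) / 4 := by rw [hη₁]; linarith
  exact Helper5.PD.path_tail_of (η := η₁) hθ (by ring) hκ hCT (fun a x z hx hz => hT a x z hx hz) (fdrec h)

end Pool.Agent.Helper51.PD
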