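import Pool.Agent.Helper51.PD.Path
import Pool.Agent.Helper51.PD.Descent
import Pool.Agent.Helper52.Tao.FIN

/-!
# The number of the integers up to `x` with a path to `a` above `z`
-/

set_option autoImplicit false

namespace Pool.Agent.Helper51.PD

open Pool.Agent.Helper68.Moeller Pool.Agent.Helper52.Moeller

variable {d m : ℕ} {r : ℤ → ℤ}

/-- The integers with a path to `a` all of whose points (with both ends) are `> z`. -/
def Gz (d m : ℕ) (r : ℤ → ℤ) (a : ℤ) (z : ℝ) : Set ℤ :=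
  {n | ∃ s : ℕ, (T d m r)^[s] n = a ∧ ∀ i ≤ s, z < ((T d m r)^[i] n : ℝ)}

theorem exists_B (d : ℕ) (r : ℤ → ℤ) : ∃ B : ℕ, 1 ≤ B ∧ ∀ j : ℤ, 0 < j → j < (d : ℤ) → |r j| ≤ B := by
  refine ⟨1 + ∑ j ∈ Finset.range d, (r j).natAbs, by omega, ?_⟩
  intro j hj hjd
  have h1 : j.toNat ∈ Finset.range d := by
    rw [Finset.mem_range]; omega
  have h2 : (r ((j.toNat : ℕ) : ℤ)).natAbs ≤ ∑ j ∈ Finset.range d, (r j).natAbs :=
    Finset.single_le_sum (f := fun j : ℕ => (r (j : ℤ)).natAbs) (fun _ _ => Nat.zero_le _) h1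
  have h3 : ((j.toNat : ℕ) : ℤ) = j := Int.toNat_of_nonneg hj.le
  rw [h3] at h2
  push_cast
  have h4 : |r j| = ((r j).natAbs : ℤ) := Int.abs_eq_natAbs _
  rw [h4]
  have h5 : (((r j).natAbs : ℕ) : ℤ) ≤ ((∑ j ∈ Finset.range d, (r j).natAbs : ℕ) : ℤ) := by
    exact_mod_cast h2
  push_cast at h5 ⊢
  linarith

theorem card_Gz (hd : 2 ≤ d) (hdm : d < m) (hco : Nat.Coprime m d)
    (hm : (m : ℝ) ≤ (d : ℝ) ^ ((d : ℝ) / ((d : ℝ) - 1))) (hr : Admissible d m r) {η : ℝ} (hη : eta d m < η)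
    (hη1 : η < 1) :
    ∃ C : ℝ, 0 < C ∧ ∀ (a : ℤ) (x z : ℝ), 2 ≤ x → 1 ≤ z →
      ({n : ℤ | 0 < n ∧ (n : ℝ) ≤ x ∧ n ∈ Gz d m r a z}.ncard : ℝ) ≤ C * Real.log x ^ 4 * x * z ^ (η - 1) := by
  classical
  obtain ⟨C₁, c, hC₁, hc, hmain⟩ := main_T' hd hdm hco hm hη hη1
  obtain ⟨B, hB1, hB⟩ := exists_B d r
  have hm1 : 1 ≤ m := by omega
  have hB1' : (1 : ℝ) ≤ B := by exact_mod_cast hB1
  have hl2 : 0 < Real.log 2 := Real.log_pos (by norm_num)
  set c₁ := c + 1 / Real.log 2 with hc₁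
  have hc₁0 : 0 < c₁ := by positivity
  refine ⟨C₁ * B + 68 * B * c₁ ^ 3 / Real.log 2 + 2 * B * c₁ / Real.log 2 ^ 3, by positivity, ?_⟩
  intro a x z hx hz
  have hx0 : 0 < x := by linarith
  have hz0 : 0 < z := by linarith
  have hlx2 : Real.log 2 ≤ Real.log x := Real.log_le_log (by norm_num) hx
  have hlx : 0 < Real.log x := hl2.trans_le hlx2
  have hzη : 0 < z ^ (η - 1) := Real.rpow_pos_of_pos hz0 _
  set N := ⌈c * Real.log x⌉₊ with hN
  have hN1 : 1 ≤ N := Nat.one_le_iff_ne_zero.2 (by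
    rw [hN]; exact (Nat.ceil_pos.2 (by positivity)).ne')
  have hN1' : (1 : ℝ) ≤ N := by exact_mod_cast hN1
  have hNc : (N : ℝ) ≤ c₁ * Real.log x := by
    have h1 := (Nat.ceil_lt_add_one (show 0 ≤ c * Real.log x by positivity)).le
    have h2 : 1 ≤ 1 / Real.log 2 * Real.log x := by
      rw [div_mul_eq_mul_div, one_mul, one_le_div hl2]; exact hlx2
    rw [hc₁, add_mul]
    linarith
  have hfin : {n : ℤ | 0 < n ∧ (n : ℝ) ≤ x ∧ n ∈ Gz d m r a z}.Finite := by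
    refine (Set.finite_Icc 0 ⌊x⌋).subset ?_
    rintro n ⟨a1, a2, _⟩
    exact ⟨a1.le, Int.le_floor.2 a2⟩
  set S : Finset ℤ := hfin.toFinset with hS
  have hSmem : ∀ n ∈ S, 0 < n ∧ (n : ℝ) ≤ x ∧ n ∈ Gz d m r a z := by
    intro n hn
    rw [hS, Set.Finite.mem_toFinset] at hn
    exact hn
  rw [Set.ncard_eq_toFinset_card _ hfin, ← hS]
  rcases lt_or_ge z (2 * B * N) with hz2 | hz2
  · -- trivial range
    have hcard : (S.card : ℝ) ≤ x := by
      have h1 : S ⊆ Finset.Icc 1 ⌊x⌋ := by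
        intro n hn
        obtain ⟨a1, a2, _⟩ := hSmem n hn
        rw [Finset.mem_Icc]
        exact ⟨a1, Int.le_floor.2 a2⟩
      have h2 := Finset.card_le_card h1
      rw [Int.card_Icc] at h2
      have h3 : ((⌊x⌋ + 1 - 1).toNat : ℤ) = ⌊x⌋ := by
        rw [add_sub_cancel_right]
        exact Int.toNat_of_nonneg (Int.floor_nonneg.2 hx0.le)
      calc (S.card : ℝ) ≤ ((⌊x⌋ + 1 - 1).toNat : ℝ) := by exact_mod_cast h2
        _ = ((((⌊x⌋ + 1 - 1).toNat : ℤ)) : ℝ) := by push_cast; rfl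
        _ = (⌊x⌋ : ℝ) := by rw [h3]
        _ ≤ x := Int.floor_le x
    have h1 : (2 * (B : ℝ) * N)⁻¹ ≤ z ^ (η - 1) := by
      calc (2 * (B : ℝ) * N)⁻¹ ≤ z⁻¹ := inv_anti₀ hz0 hz2.le
        _ = z ^ (-1 : ℝ) := (Real.rpow_neg_one z).symm
        _ ≤ z ^ (η - 1) := Real.rpow_le_rpow_of_exponent_le hz (by
            have := eta_pos hd hdm
            linarith)
    have h2 : x ≤ (2 * B * c₁ / Real.log 2 ^ 3) * Real.log x ^ 4 * x * (2 * (B : ℝ) * N)⁻¹ := by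
      have h3 : (2 * B * c₁ / Real.log 2 ^ 3) * Real.log x ^ 4 * x * (2 * (B : ℝ) * N)⁻¹ =
          (c₁ * Real.log x / N) * (Real.log x ^ 3 / Real.log 2 ^ 3) * x := by
        field_simp
      rw [h3]
      have h4 : 1 ≤ c₁ * Real.log x / N := by
        rw [one_le_div (by positivity)]; exact hNc
      have h5 : 1 ≤ Real.log x ^ 3 / Real.log 2 ^ 3 := by
        rw [one_le_div (by positivity)]
        exact pow_le_pow_left₀ hl2.le hlx2 3
      have h6 : 1 ≤ (c₁ * Real.log x / N) * (Real.log x ^ 3 / Real.log 2 ^ 3) := by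
        nlinarith
      nlinarith
    calc (S.card : ℝ) ≤ x := hcard
      _ ≤ (2 * B * c₁ / Real.log 2 ^ 3) * Real.log x ^ 4 * x * (2 * (B : ℝ) * N)⁻¹ := h2
      _ ≤ (2 * B * c₁ / Real.log 2 ^ 3) * Real.log x ^ 4 * x * z ^ (η - 1) := by gcongr
      _ ≤ _ := by
          gcongr
          have : 0 ≤ C₁ * B + 68 * B * c₁ ^ 3 / Real.log 2 := by positivity
          linarith
  rcases lt_or_ge x z with hxz | hxz
  · -- nothing to count
    have : S = ∅ := by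
      rw [Finset.eq_empty_iff_forall_notMem]
      intro n hn
      obtain ⟨_, a2, s, _, a3⟩ := hSmem n hn
      have := a3 0 (Nat.zero_le _)
      simp only [Function.iterate_zero, id_eq] at this
      linarith
    rw [this]
    simp only [Finset.card_empty, Nat.cast_zero]
    positivity
  set P : ℤ → Prop := fun n => ∃ t ≤ N, (T d m r)^[t] n = a ∧ ∀ i ≤ t, z < ((T d m r)^[i] n : ℝ) with hP
  have h1 : ((S.filter P).card : ℝ) ≤ 68 * B * (N : ℝ) ^ 3 * (x / z) := by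
    refine card_hit (a := a) hr hd hm1 hB hB1 hN1 hz2 hxz _ ?_
    intro n hn
    rw [Finset.mem_filter] at hn
    exact ⟨(hSmem n hn.1).1, (hSmem n hn.1).2.1, hn.2⟩
  have h2 : ((S.filter fun n => ¬ P n).card : ℝ) ≤ C₁ * B * Real.log x ^ 4 * x * z ^ (η - 1) := by
    refine hmain r hr B hB1 hB x z hx hz _ ?_
    intro n hn
    rw [Finset.mem_filter] at hn
    obtain ⟨hn1, hn2⟩ := hn
    obtain ⟨a1, a2, s, a3, a4⟩ := hSmem n hn1
    have hs : N < s := by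
      by_contra hcon
      rw [not_lt] at hcon
      exact hn2 ⟨s, hcon, a3, a4⟩
    exact ⟨a1, a2, fun k hk => a4 k (hk.trans hs.le)⟩
  have h3 : (S.card : ℝ) = ((S.filter P).card : ℝ) + ((S.filter fun n => ¬ P n).card : ℝ) := by
    rw [← Finset.card_filter_add_card_filter_not (s := S) P]
    push_cast; rfl
  have h4 : x / z ≤ x * z ^ (η - 1) := by
    rw [div_eq_mul_inv, ← Real.rpow_neg_one z]
    refine mul_le_mul_of_nonneg_left ?_ hx0.le
    exact Real.rpow_le_rpow_of_exponent_le hz (by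
      have := eta_pos hd hdm
      linarith)
  have h5 : (N : ℝ) ^ 3 ≤ c₁ ^ 3 / Real.log 2 * Real.log x ^ 4 := by
    calc (N : ℝ) ^ 3 ≤ (c₁ * Real.log x) ^ 3 := by gcongr
      _ = c₁ ^ 3 / Real.log 2 * (Real.log x ^ 3 * Real.log 2) := by field_simp
      _ ≤ c₁ ^ 3 / Real.log 2 * (Real.log x ^ 3 * Real.log x) := by gcongr
      _ = _ := by ring
  rw [h3]
  calc ((S.filter P).card : ℝ) + ((S.filter fun n => ¬ P n).card : ℝ)
      ≤ 68 * B * (N : ℝ) ^ 3 * (x / z) + C₁ * B * Real.log x ^ 4 * x * z ^ (η - 1) := by linarith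
    _ ≤ 68 * B * (c₁ ^ 3 / Real.log 2 * Real.log x ^ 4) * (x * z ^ (η - 1)) +
        C₁ * B * Real.log x ^ 4 * x * z ^ (η - 1) := by gcongr
    _ = (C₁ * B + 68 * B * c₁ ^ 3 / Real.log 2) * Real.log x ^ 4 * x * z ^ (η - 1) := by ring
    _ ≤ (C₁ * B + 68 * B * c₁ ^ 3 / Real.log 2 + 2 * B * c₁ / Real.log 2 ^ 3) * Real.log x ^ 4 * x *
          z ^ (η - 1) := by
        have hpos : 0 ≤ 2 * (B : ℝ) * c₁ / Real.log 2 ^ 3 := by positivity
        refine mul_le_mul_of_nonneg_right ?_ hzη.le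
        refine mul_le_mul_of_nonneg_right ?_ hx0.le
        refine mul_le_mul_of_nonneg_right ?_ (by positivity)
        linarith

end Pool.Agent.Helper51.PD
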