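import Pool.Agent.Helper52.Moeller.Density

/-!
# Paths to a point `a` which stay above a level `z`

At most `C N ^ 3 x / z` positive integers `n ≤ x` have a path of length at most `N` to `a` which stays above `z`.
-/

set_option autoImplicit false

namespace Pool.Agent.Helper51.PD

open Pool.Agent.Helper68.Moeller Pool.Agent.Helper52.Moeller

variable {d m : ℕ} {r : ℤ → ℤ}

section

variable {B N : ℕ} {z : ℝ}

/-- The error of linearity along a path above `z`. -/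
theorem path_err (hr : Admissible d m r) (hd : 2 ≤ d) (hm : 1 ≤ m)
    (hB : ∀ j : ℤ, 0 < j → j < (d : ℤ) → |r j| ≤ B) (hB1 : 1 ≤ B) (hN : 1 ≤ N)
    (hz : 2 * (B : ℝ) * N ≤ z) {a : ℤ} : ∀ t : ℕ, t ≤ N → ∀ n : ℤ, (T d m r)^[t] n = a →
    (∀ i ≤ t, z < ((T d m r)^[i] n : ℝ)) →
    |(err d m r t n : ℝ)| ≤ 2 * B * t * (d : ℝ) ^ t * (a / z) := by
  have hB1' : (1 : ℝ) ≤ B := by exact_mod_cast hB1
  have hN1 : (1 : ℝ) ≤ N := by exact_mod_cast hN
  have hz0 : 0 < z := lt_of_lt_of_le (by positivity) hz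
  have hd1 : (1 : ℝ) ≤ d := by exact_mod_cast (by omega : 1 ≤ d)
  intro t
  induction t with
  | zero => intro _ n _ _; simp [err, cnt]
  | succ t ih =>
    intro ht n hna habove
    rw [Function.iterate_succ_apply] at hna
    have ha : ∀ i ≤ t, z < ((T d m r)^[i] (T d m r n) : ℝ) := by
      intro i hi
      have := habove (i + 1) (by omega)
      rwa [Function.iterate_succ_apply] at this
    have h1 := ih (by omega) (T d m r n) hna ha
    have hu : z < (T d m r n : ℝ) := by simpa using ha 0 (Nat.zero_le _)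
    have hu0 : 0 < T d m r n := by exact_mod_cast hz0.trans hu
    obtain ⟨h2, _⟩ := size hr hd hm hB hB1 hN hz t (by omega) (T d m r n) hu0
      (fun i hi => ha i hi.le)
    rw [hna] at h2
    have haz : z < (a : ℝ) := by
      have := ha t le_rfl
      rwa [hna] at this
    have h3 : (m : ℝ) ^ cnt d m r t (T d m r n) ≤ 2 * (d : ℝ) ^ t * (a / z) := by
      have h4 : (m : ℝ) ^ cnt d m r t (T d m r n) * z ≤ 2 * ((d : ℝ) ^ t * a) :=
        (mul_le_mul_of_nonneg_left hu.le (by positivity)).trans h2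
      rw [← mul_div_assoc, le_div_iff₀ hz0]
      linarith
    have h5 : |(if (d : ℤ) ∣ n then (0 : ℝ) else
        (m : ℝ) ^ cnt d m r t (T d m r n) * (r (n % d) : ℝ))| ≤ 2 * B * (d : ℝ) ^ t * (a / z) := by
      have haz0 : 0 ≤ (a : ℝ) / z := div_nonneg (hz0.trans haz).le hz0.le
      split_ifs with hdu
      · rw [abs_zero]; positivity
      · obtain ⟨e1, e2⟩ := emod_pos hd hdu
        have h6 : |(r (n % d) : ℝ)| ≤ B := by exact_mod_cast hB _ e1 e2
        rw [abs_mul, abs_of_nonneg (by positivity)]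
        calc (m : ℝ) ^ cnt d m r t (T d m r n) * |(r (n % d) : ℝ)|
            ≤ (2 * (d : ℝ) ^ t * (a / z)) * B := mul_le_mul h3 h6 (abs_nonneg _) (by positivity)
          _ = _ := by ring
    have h4 : (err d m r (t + 1) n : ℝ) = d * (err d m r t (T d m r n) : ℝ) +
        (if (d : ℤ) ∣ n then (0 : ℝ) else
          (m : ℝ) ^ cnt d m r t (T d m r n) * (r (n % d) : ℝ)) := by
      rw [err_succ hr hd]; push_cast; split_ifs <;> rfl
    rw [h4]
    have h7 := abs_add_le (d * (err d m r t (T d m r n) : ℝ))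
      (if (d : ℤ) ∣ n then (0 : ℝ) else (m : ℝ) ^ cnt d m r t (T d m r n) * (r (n % d) : ℝ))
    rw [abs_mul, abs_of_nonneg (by linarith : (0 : ℝ) ≤ (d : ℝ))] at h7
    have haz0 : 0 ≤ (a : ℝ) / z := div_nonneg (hz0.trans haz).le hz0.le
    have h8 : (d : ℝ) ^ t * (a / z) ≤ (d : ℝ) * ((d : ℝ) ^ t * (a / z)) := by
      have : 0 ≤ (d : ℝ) ^ t * (a / z) := by positivity
      nlinarith
    push_cast
    calc |_| ≤ (d : ℝ) * |(err d m r t (T d m r n) : ℝ)| + 2 * B * (d : ℝ) ^ t * (a / z) := by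
          linarith
      _ ≤ (d : ℝ) * (2 * B * t * (d : ℝ) ^ t * (a / z)) + 2 * B * (d : ℝ) ^ t * (a / z) := by gcongr
      _ = 2 * B * t * ((d : ℝ) * ((d : ℝ) ^ t * (a / z))) + 2 * B * ((d : ℝ) ^ t * (a / z)) := by ring
      _ ≤ 2 * B * t * ((d : ℝ) * ((d : ℝ) ^ t * (a / z))) +
          2 * B * ((d : ℝ) * ((d : ℝ) ^ t * (a / z))) := by gcongr
      _ = _ := by ring

/-- Points with the same time and number of nonzero residues lie in a short interval. -/
theorem card_hit_one (hr : Admissible d m r) (hd : 2 ≤ d) (hm : 1 ≤ m)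
    (hB : ∀ j : ℤ, 0 < j → j < (d : ℤ) → |r j| ≤ B) (hB1 : 1 ≤ B) (hN : 1 ≤ N)
    (hz : 2 * (B : ℝ) * N ≤ z) {a : ℤ} {x : ℝ} (hx : 0 ≤ x) {t s : ℕ} (ht : t ≤ N) (A : Finset ℤ)
    (hA : ∀ n ∈ A, 0 < n ∧ (n : ℝ) ≤ x ∧ (T d m r)^[t] n = a ∧ cnt d m r t n = s ∧
      ∀ i ≤ t, z < ((T d m r)^[i] n : ℝ)) :
    (A.card : ℝ) ≤ 16 * B * N * (x / z) + 1 := by
  have hB1' : (1 : ℝ) ≤ B := by exact_mod_cast hB1
  have hN1 : (1 : ℝ) ≤ N := by exact_mod_cast hN
  have hz0 : 0 < z := lt_of_lt_of_le (by positivity) hz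
  have hm1 : (1 : ℝ) ≤ m := by exact_mod_cast hm
  have htN : (t : ℝ) ≤ N := by exact_mod_cast ht
  rcases A.eq_empty_or_nonempty with h0 | ⟨n₀, hn₀⟩
  · subst h0
    simp only [Finset.card_empty, Nat.cast_zero]; positivity
  obtain ⟨p1, p2, p3, p4, p5⟩ := hA n₀ hn₀
  have e0 := path_err hr hd hm hB hB1 hN hz t ht n₀ p3 p5
  obtain ⟨_, hs2⟩ := size hr hd hm hB hB1 hN hz t ht n₀ p1 (fun i hi => p5 i hi.le)
  rw [p3, p4] at hs2
  have hms : (0 : ℝ) < (m : ℝ) ^ s := by positivity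
  have hup : (d : ℝ) ^ t * a ≤ 2 * ((m : ℝ) ^ s * x) := by
    have : (m : ℝ) ^ s * n₀ ≤ (m : ℝ) ^ s * x := mul_le_mul_of_nonneg_left p2 hms.le
    linarith
  set R : ℝ := 8 * B * N * (x / z) with hR
  have hR0 : 0 ≤ R := by positivity
  have key : ∀ n ∈ A, |((n : ℝ) - n₀)| ≤ R := by
    intro n hn
    obtain ⟨q1, q2, q3, q4, q5⟩ := hA n hn
    have e1 := path_err hr hd hm hB hB1 hN hz t ht n q3 q5
    have h1 : (m : ℝ) ^ s * ((n : ℝ) - n₀) = (err d m r t n : ℝ) - (err d m r t n₀ : ℝ) := by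
      simp only [err, p3, q3, p4, q4]
      push_cast
      ring
    have h2 : |(m : ℝ) ^ s * ((n : ℝ) - n₀)| ≤ 2 * (2 * B * t * (d : ℝ) ^ t * (a / z)) := by
      rw [h1]
      refine (abs_sub _ _).trans ?_
      linarith
    rw [abs_mul, abs_of_pos hms] at h2
    have h3 : 2 * (2 * B * t * (d : ℝ) ^ t * (a / z)) ≤ (m : ℝ) ^ s * R := by
      calc 2 * (2 * B * t * (d : ℝ) ^ t * (a / z)) = 4 * B * t * ((d : ℝ) ^ t * a) / z := by
            field_simp; ring
        _ ≤ 4 * B * N * (2 * ((m : ℝ) ^ s * x)) / z := by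
            have ha0 : 0 ≤ (d : ℝ) ^ t * (a : ℝ) := by
              have : z < (a : ℝ) := by
                have := p5 t le_rfl
                rwa [p3] at this
              have : (0 : ℝ) < a := hz0.trans this
              positivity
            gcongr
        _ = (m : ℝ) ^ s * R := by rw [hR]; field_simp; ring
    exact le_of_mul_le_mul_left (h2.trans h3) hms
  have hsub : A ⊆ Finset.Icc (n₀ - ⌊R⌋) (n₀ + ⌊R⌋) := by
    intro n hn
    have h1 := key n hn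
    have h2 : |n - n₀| ≤ ⌊R⌋ := by
      rw [Int.le_floor]
      push_cast
      exact h1
    rw [abs_le] at h2
    rw [Finset.mem_Icc]
    omega
  have hfl : 0 ≤ ⌊R⌋ := Int.floor_nonneg.2 hR0
  have h1 := Finset.card_le_card hsub
  rw [Int.card_Icc] at h1
  have h2 : ((n₀ + ⌊R⌋ + 1 - (n₀ - ⌊R⌋)).toNat : ℤ) = 2 * ⌊R⌋ + 1 := by
    rw [Int.toNat_of_nonneg (by omega)]; ring
  have h3 : ((n₀ + ⌊R⌋ + 1 - (n₀ - ⌊R⌋)).toNat : ℝ) = 2 * (⌊R⌋ : ℝ) + 1 := by
    exact_mod_cast h2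
  calc (A.card : ℝ) ≤ ((n₀ + ⌊R⌋ + 1 - (n₀ - ⌊R⌋)).toNat : ℝ) := by exact_mod_cast h1
    _ = 2 * (⌊R⌋ : ℝ) + 1 := h3
    _ ≤ 2 * R + 1 := by have := Int.floor_le R; linarith
    _ = _ := by rw [hR]; ring

/-- Points with a path of length at most `N` to `a` which stays above `z`. -/
theorem card_hit (hr : Admissible d m r) (hd : 2 ≤ d) (hm : 1 ≤ m)
    (hB : ∀ j : ℤ, 0 < j → j < (d : ℤ) → |r j| ≤ B) (hB1 : 1 ≤ B) (hN : 1 ≤ N)
    (hz : 2 * (B : ℝ) * N ≤ z) {a : ℤ} {x : ℝ} (hx : z ≤ x) (A : Finset ℤ)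
    (hA : ∀ n ∈ A, 0 < n ∧ (n : ℝ) ≤ x ∧ ∃ t ≤ N, (T d m r)^[t] n = a ∧
      ∀ i ≤ t, z < ((T d m r)^[i] n : ℝ)) :
    (A.card : ℝ) ≤ 68 * B * (N : ℝ) ^ 3 * (x / z) := by
  classical
  have hB1' : (1 : ℝ) ≤ B := by exact_mod_cast hB1
  have hN1 : (1 : ℝ) ≤ N := by exact_mod_cast hN
  have hz0 : 0 < z := lt_of_lt_of_le (by positivity) hz
  have hx0 : 0 ≤ x := hz0.le.trans hx
  have hxz : 1 ≤ x / z := by rwa [one_le_div hz0]
  choose! t ht1 ht2 ht3 using fun n (hn : n ∈ A) => (hA n hn).2.2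
  set f : ℤ → ℕ × ℕ := fun n => (t n, cnt d m r (t n) n) with hf
  have hmaps : ∀ n ∈ A, f n ∈ Finset.range (N + 1) ×ˢ Finset.range (N + 1) := by
    intro n hn
    rw [Finset.mem_product, Finset.mem_range, Finset.mem_range]
    have h1 := ht1 n hn
    have h2 := cnt_le (d := d) (m := m) (r := r) (t n) n
    simp only [hf]
    omega
  have h1 : A.card = ∑ p ∈ Finset.range (N + 1) ×ˢ Finset.range (N + 1),
      (A.filter (fun n => f n = p)).card := Finset.card_eq_sum_card_fiberwise hmaps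
  have h2 : ∀ p ∈ Finset.range (N + 1) ×ˢ Finset.range (N + 1),
      ((A.filter (fun n => f n = p)).card : ℝ) ≤ 17 * B * N * (x / z) := by
    intro p hp
    rw [Finset.mem_product, Finset.mem_range, Finset.mem_range] at hp
    have h3 : ((A.filter (fun n => f n = p)).card : ℝ) ≤ 16 * B * N * (x / z) + 1 := by
      refine card_hit_one (a := a) (t := p.1) (s := p.2) hr hd hm hB hB1 hN hz hx0 (by omega) _ ?_
      intro n hn
      rw [Finset.mem_filter] at hn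
      obtain ⟨hn1, hn2⟩ := hn
      have e1 : t n = p.1 := by rw [← hn2]
      have e2 : cnt d m r (t n) n = p.2 := by rw [← hn2]
      refine ⟨(hA n hn1).1, (hA n hn1).2.1, ?_, ?_, ?_⟩
      · rw [← e1]; exact ht2 n hn1
      · rw [← e1]; exact e2
      · rw [← e1]; exact ht3 n hn1
    have h4 : (1 : ℝ) ≤ B * N * (x / z) := by
      have e1 : (1 : ℝ) ≤ B * N := by nlinarith
      nlinarith
    linarith
  have h3 : (A.card : ℝ) = ∑ p ∈ Finset.range (N + 1) ×ˢ Finset.range (N + 1),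
      ((A.filter (fun n => f n = p)).card : ℝ) := by
    rw [h1]; push_cast; rfl
  rw [h3]
  refine (Finset.sum_le_card_nsmul _ _ _ h2).trans ?_
  rw [Finset.card_product, Finset.card_range, nsmul_eq_mul]
  have h5 : ((N : ℝ) + 1) * ((N : ℝ) + 1) ≤ 4 * (N : ℝ) ^ 2 := by nlinarith
  push_cast
  calc ((N : ℝ) + 1) * ((N : ℝ) + 1) * (17 * B * N * (x / z))
      ≤ 4 * (N : ℝ) ^ 2 * (17 * B * N * (x / z)) := by gcongr
    _ = _ := by ring

end

end Pool.Agent.Helper51.PD
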